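import Pool.Agent.H458.AU.Def

/-!
# Project AU (helper458), part `S_GC`: a lower bound for the number of good residues
-/

set_option autoImplicit false
set_option linter.all false

open Polynomial IsDedekindDomain NumberField
open scoped Classical

namespace Pool.Agent.H747.AU458

open Pool.Agent.N783.PF (sp rd)
open Pool.Agent.H458.AU

/-- The number of irreducible polynomials `X ^ 2 + a` over a finite field of odd characteristic. -/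
theorem nsq (k : Type) [Field k] [Finite k] (h2 : ringChar k ≠ 2) :
    Nat.card k ≤ 4 * {a : k | Irreducible (X ^ 2 + C a : k[X])}.ncard := by
  have hmon : ∀ a : k, (X ^ 2 + C a : k[X]).Monic := fun a => monic_X_pow_add_C a (by norm_num)
  have hdeg : ∀ a : k, (X ^ 2 + C a : k[X]).natDegree = 2 := fun a => natDegree_X_pow_add_C
  have hir : ∀ a : k, Irreducible (X ^ 2 + C a : k[X]) ↔ ¬ IsSquare (-a) := by
    intro a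
    rw [(hmon a).irreducible_iff_roots_eq_zero_of_degree_le_three (by rw [hdeg]) (by rw [hdeg]; norm_num)]
    constructor
    · rintro h ⟨b, hb⟩
      have h1 : b ∈ (X ^ 2 + C a : k[X]).roots := by
        rw [mem_roots (hmon a).ne_zero, IsRoot, eval_add, eval_pow, eval_X, eval_C, sq, ← hb]
        ring
      rw [h] at h1
      exact Multiset.notMem_zero _ h1
    · intro h
      refine Multiset.eq_zero_of_forall_notMem fun b hb => h ⟨b, ?_⟩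
      rw [mem_roots (hmon a).ne_zero, IsRoot, eval_add, eval_pow, eval_X, eval_C] at hb
      linear_combination -hb
  haveI : Fintype k := Fintype.ofFinite k
  obtain ⟨d, hd⟩ := FiniteField.exists_nonsquare h2
  have hd0 : d ≠ 0 := by
    rintro rfl
    exact hd ⟨0, by ring⟩
  set A : Set k := {a : k | Irreducible (X ^ 2 + C a : k[X])} with hA
  have h3 : (Aᶜ \ {0}).ncard ≤ A.ncard := by
    refine Set.ncard_le_ncard_of_injOn (fun a => d * a) ?_ ?_ (Set.toFinite A)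
    · rintro a ⟨ha, ha0⟩
      rw [hA, Set.mem_compl_iff, Set.mem_setOf_eq, hir, not_not] at ha
      obtain ⟨b, hb⟩ := ha
      show Irreducible _
      rw [hir]
      rintro ⟨e, he⟩
      have hb0 : b ≠ 0 := by
        rintro rfl
        exact ha0 (by simpa using hb)
      refine hd ⟨e / b, ?_⟩
      have h4 : d * (b * b) = e * e := by rw [← hb, ← he]; ring
      field_simp
      rw [sq, sq, ← h4]
    · intro a _ b _ hab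
      exact mul_left_cancel₀ hd0 hab
  have h4 : A.ncard + Aᶜ.ncard = Nat.card k := Set.ncard_add_ncard_compl A
  have h5 : Aᶜ.ncard ≤ (Aᶜ \ {0}).ncard + 1 := by
    have := Set.ncard_le_ncard_sdiff_add_ncard Aᶜ ({0} : Set k)
    rwa [Set.ncard_singleton] at this
  have h6 : 2 ≤ Nat.card k := Finite.one_lt_card
  omega

section

variable {F : Type} [Field F] [NumberField F]

/-- The primes over `q`. -/
noncomputable def Ps (F : Type) [Field F] [NumberField F] (q : ℕ) : Finset (Ideal (𝓞 F)) :=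
  (UniqueFactorizationMonoid.normalizedFactors (sp F q)).toFinset

theorem sp_ne {q : ℕ} (hq : q.Prime) : sp F q ≠ ⊥ := by
  unfold sp
  rw [Ne, Ideal.span_singleton_eq_bot]
  exact_mod_cast hq.ne_zero

theorem mem_Ps {q : ℕ} (hq : q.Prime) {𝔭 : Ideal (𝓞 F)} :
    𝔭 ∈ Ps F q ↔ 𝔭.IsPrime ∧ (q : 𝓞 F) ∈ 𝔭 := by
  unfold Ps
  rw [Multiset.mem_toFinset, Ideal.mem_normalizedFactors_iff (sp_ne hq)]
  unfold sp
  rw [Ideal.span_singleton_le_iff_mem]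

theorem Ps_prod {q : ℕ} (hq : q.Prime) (h : ∀ 𝔭 : Ideal (𝓞 F), 𝔭.IsPrime → (q : 𝓞 F) ∉ 𝔭 ^ 2) :
    ∏ 𝔭 ∈ Ps F q, 𝔭 = sp F q := by
  have hsq : Squarefree (sp F q) := by
    intro x hx
    by_contra hu
    rw [Ideal.isUnit_iff] at hu
    obtain ⟨M, hM, hxM⟩ := Ideal.exists_le_maximal x hu
    refine h M hM.isPrime ?_
    have h1 : sp F q ≤ x * x := Ideal.le_of_dvd hx
    have h2 : (q : 𝓞 F) ∈ sp F q := Ideal.mem_span_singleton_self _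
    rw [sq]
    exact Ideal.mul_mono hxM hxM (h1 h2)
  have hnd := (UniqueFactorizationMonoid.squarefree_iff_nodup_normalizedFactors (sp_ne hq)).1 hsq
  show (Multiset.map (fun x => x)
    (UniqueFactorizationMonoid.normalizedFactors (sp F q)).toFinset.val).prod = _
  rw [Multiset.map_id', Multiset.toFinset_val, hnd.dedup,
    Ideal.prod_normalizedFactors_eq_self (sp_ne hq)]

theorem nm {q : ℕ} (hq : q.Prime) (h : ∀ 𝔭 : Ideal (𝓞 F), 𝔭.IsPrime → (q : 𝓞 F) ∉ 𝔭 ^ 2) :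
    ∏ 𝔭 ∈ Ps F q, Ideal.absNorm 𝔭 = q ^ Module.finrank ℚ F := by
  rw [← map_prod, Ps_prod hq h]
  unfold sp
  rw [Ideal.absNorm_span_natCast, RingOfIntegers.rank]

theorem le_nm {q : ℕ} (hq : q.Prime) {𝔭 : Ideal (𝓞 F)} (h : 𝔭 ∈ Ps F q) : q ≤ Ideal.absNorm 𝔭 := by
  rw [mem_Ps hq] at h
  have h1 : 𝔭 ≠ ⊥ := by
    rintro rfl
    have := h.2
    rw [Ideal.mem_bot] at this
    exact hq.ne_zero (by exact_mod_cast this)
  have h2 : Ideal.absNorm 𝔭 ≠ 0 := by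
    rwa [Ne, Ideal.absNorm_eq_zero_iff]
  have h3 := Ideal.absNorm_mem 𝔭
  refine Nat.le_of_dvd (Nat.pos_of_ne_zero h2) ?_
  by_contra hd
  have hc : Nat.Coprime q (Ideal.absNorm 𝔭) := (Nat.Prime.coprime_iff_not_dvd hq).2 hd
  have h4 := (Nat.isCoprime_iff_coprime.2 hc)
  obtain ⟨u, v, huv⟩ := h4
  refine h.1.ne_top ((Ideal.eq_top_iff_one _).2 ?_)
  have h5 : (1 : 𝓞 F) = (u : 𝓞 F) * (q : 𝓞 F) + (v : 𝓞 F) * ((Ideal.absNorm 𝔭 : ℕ) : 𝓞 F) := by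
    have := congrArg (Int.cast : ℤ → 𝓞 F) huv
    push_cast at this
    exact this.symm
  rw [h5]
  exact Ideal.add_mem _ (Ideal.mul_mem_left _ _ h.2) (Ideal.mul_mem_left _ _ h3)

theorem card_Ps {q : ℕ} (hq : q.Prime) (h : ∀ 𝔭 : Ideal (𝓞 F), 𝔭.IsPrime → (q : 𝓞 F) ∉ 𝔭 ^ 2) :
    (Ps F q).card ≤ Module.finrank ℚ F := by
  have h1 : q ^ (Ps F q).card ≤ q ^ Module.finrank ℚ F := by
    rw [← nm hq h]
    exact Finset.pow_card_le_prod _ _ _ fun 𝔭 h𝔭 => le_nm hq h𝔭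
  exact (Nat.pow_le_pow_iff_right hq.one_lt).1 h1

theorem crt {q : ℕ} (hq : q.Prime) (r : ∀ 𝔭 : Ps F q, (𝓞 F ⧸ 𝔭.1) × (𝓞 F ⧸ 𝔭.1)) :
    ∃ ab : 𝓞 F × 𝓞 F, ∀ 𝔭 : Ps F q,
      (Ideal.Quotient.mk 𝔭.1 ab.1, Ideal.Quotient.mk 𝔭.1 ab.2) = r 𝔭 := by
  have key : ∀ x : Ps F q → 𝓞 F, ∃ y : 𝓞 F, ∀ 𝔭 : Ps F q,
      Ideal.Quotient.mk 𝔭.1 y = Ideal.Quotient.mk 𝔭.1 (x 𝔭) := by
    intro x
    obtain ⟨y, hy⟩ := IsDedekindDomain.exists_forall_sub_mem_ideal (s := Ps F q)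
      (fun 𝔭 : Ideal (𝓞 F) => 𝔭) (fun _ => 1)
      (fun 𝔭 h𝔭 => by
        rw [mem_Ps hq] at h𝔭
        refine Ideal.prime_of_isPrime ?_ h𝔭.1
        rintro rfl
        have := h𝔭.2
        rw [Ideal.mem_bot] at this
        exact hq.ne_zero (by exact_mod_cast this))
      (fun i _ j _ hij => hij) x
    refine ⟨y, fun 𝔭 => ?_⟩
    have := hy 𝔭.1 𝔭.2
    rw [pow_one] at this
    exact Ideal.Quotient.eq.2 this
  have h1 : ∀ 𝔭 : Ps F q, ∃ u v : 𝓞 F, (Ideal.Quotient.mk 𝔭.1 u, Ideal.Quotient.mk 𝔭.1 v) = r 𝔭 := by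
    intro 𝔭
    obtain ⟨u, hu⟩ := Ideal.Quotient.mk_surjective (r 𝔭).1
    obtain ⟨v, hv⟩ := Ideal.Quotient.mk_surjective (r 𝔭).2
    exact ⟨u, v, by rw [hu, hv]⟩
  choose u v huv using h1
  obtain ⟨a, ha⟩ := key u
  obtain ⟨b, hb⟩ := key v
  refine ⟨(a, b), fun 𝔭 => ?_⟩
  rw [← huv 𝔭]
  show (Ideal.Quotient.mk 𝔭.1 a, Ideal.Quotient.mk 𝔭.1 b) = _
  rw [ha, hb]

/-- The good residues at one prime. -/
def Ss (𝔮 𝔭 : Ideal (𝓞 F)) : Set ((𝓞 F ⧸ 𝔭) × (𝓞 F ⧸ 𝔭)) :=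
  {r | (𝔭 = 𝔮 → r.2 = 0 ∧ Irreducible (X ^ 2 + C r.1 : (𝓞 F ⧸ 𝔭)[X])) ∧
    (𝔭 ≠ 𝔮 → Irreducible (X ^ 3 + C r.1 * X + C r.2 : (𝓞 F ⧸ 𝔭)[X]))}

theorem fin_quot {𝔭 : Ideal (𝓞 F)} (h : 𝔭 ≠ ⊥) : Finite (𝓞 F ⧸ 𝔭) :=
  Ideal.finiteQuotientOfFreeOfNeBot 𝔭 h

theorem le_GR {q : ℕ} (hq : q.Prime) {𝔮 : Ideal (𝓞 F)} (h𝔮 : 𝔮.IsPrime) (hm : (q : 𝓞 F) ∈ 𝔮) :
    ∏ 𝔭 : Ps F q, (Ss 𝔮 𝔭.1).ncard ≤ (GR q 𝔮).ncard := by
  have h0 : ∏ 𝔭 : Ps F q, (Ss 𝔮 𝔭.1).ncard = Nat.card (∀ 𝔭 : Ps F q, Ss 𝔮 𝔭.1) := by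
    rw [Nat.card_pi]
    rfl
  rw [h0]
  haveI : Finite (𝓞 F ⧸ sp F q) := fin_quot (sp_ne hq)
  have hle : ∀ 𝔭 : Ps F q, sp F q ≤ 𝔭.1 := fun 𝔭 => by
    have := ((mem_Ps hq).1 𝔭.2).2
    rwa [sp, Ideal.span_singleton_le_iff_mem]
  choose ab hab using crt (F := F) hq
  have hG : ∀ s : (∀ 𝔭 : Ps F q, Ss 𝔮 𝔭.1),
      mk2 q (ab fun 𝔭 => (s 𝔭).1).1 (ab fun 𝔭 => (s 𝔭).1).2 ∈ GR q 𝔮 := by
    intro s
    rw [mem_GR hm]
    have hs := hab fun 𝔭 => (s 𝔭).1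
    generalize ab (fun 𝔭 => (s 𝔭).1) = z at hs
    obtain ⟨a, b⟩ := z
    have h1 : 𝔮 ∈ Ps F q := (mem_Ps hq).2 ⟨h𝔮, hm⟩
    have h2 := hs ⟨𝔮, h1⟩
    have h3 := (s ⟨𝔮, h1⟩).2.1 rfl
    rw [← h2] at h3
    refine ⟨Ideal.Quotient.eq_zero_iff_mem.1 h3.1, ?_, fun 𝔭 h4 h5 h6 => ?_⟩
    · have h4 : rd 𝔮 (X ^ 2 + C a) = X ^ 2 + C (Ideal.Quotient.mk 𝔮 a) := by
        unfold rd
        rw [Polynomial.map_add, Polynomial.map_pow, map_X, map_C]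
      show Irreducible (rd 𝔮 (X ^ 2 + C a))
      rw [h4]
      exact h3.2
    · have h7 : 𝔭 ∈ Ps F q := (mem_Ps hq).2 ⟨h4, h5⟩
      have h8 := hs ⟨𝔭, h7⟩
      have h9 := (s ⟨𝔭, h7⟩).2.2 h6
      rw [← h8] at h9
      have h10 : rd 𝔭 (pl a b) = X ^ 3 + C (Ideal.Quotient.mk 𝔭 a) * X + C (Ideal.Quotient.mk 𝔭 b) := by
        unfold rd pl
        simp only [Polynomial.map_add, Polynomial.map_mul, Polynomial.map_pow, map_X, map_C]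
      show Irreducible (rd 𝔭 (pl a b))
      rw [h10]
      exact h9
  have hinj : Function.Injective fun s : (∀ 𝔭 : Ps F q, Ss 𝔮 𝔭.1) =>
      (⟨mk2 q (ab fun 𝔭 => (s 𝔭).1).1 (ab fun 𝔭 => (s 𝔭).1).2, hG s⟩ : GR q 𝔮) := by
    intro s s' h
    have h1 := congrArg Subtype.val h
    have h2 : mk2 q (ab fun 𝔭 => (s 𝔭).1).1 (ab fun 𝔭 => (s 𝔭).1).2 =
      mk2 q (ab fun 𝔭 => (s' 𝔭).1).1 (ab fun 𝔭 => (s' 𝔭).1).2 := h1
    rw [mk2_eq] at h2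
    funext 𝔭
    apply Subtype.ext
    have h3 := hab (fun 𝔭 => (s 𝔭).1) 𝔭
    have h4 := hab (fun 𝔭 => (s' 𝔭).1) 𝔭
    have h5 := Ideal.Quotient.eq.2 (hle 𝔭 h2.1)
    have h6 := Ideal.Quotient.eq.2 (hle 𝔭 h2.2)
    show (s 𝔭).1 = (s' 𝔭).1
    have h3' : (Ideal.Quotient.mk 𝔭.1 (ab fun 𝔭 => (s 𝔭).1).1, Ideal.Quotient.mk 𝔭.1 (ab fun 𝔭 => (s 𝔭).1).2) = (s 𝔭).1 := h3
    have h4' : (Ideal.Quotient.mk 𝔭.1 (ab fun 𝔭 => (s' 𝔭).1).1, Ideal.Quotient.mk 𝔭.1 (ab fun 𝔭 => (s' 𝔭).1).2) = (s' 𝔭).1 := h4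
    rw [← h3', ← h4', h5, h6]
  exact Nat.card_le_card_of_injective _ hinj

theorem le_Ss (h : S_IRC) {q : ℕ} (hq : q.Prime) (hq3 : 3 < q) {𝔮 : Ideal (𝓞 F)}
    (hN : Ideal.absNorm 𝔮 = q) {𝔭 : Ideal (𝓞 F)} (h𝔭 : 𝔭 ∈ Ps F q) :
    Ideal.absNorm 𝔭 ^ 2 ≤ 4 * (if 𝔭 = 𝔮 then q else 1) * (Ss 𝔮 𝔭).ncard := by
  have h1 := (mem_Ps hq).1 h𝔭
  have h2 : 𝔭 ≠ ⊥ := by
    rintro rfl
    have := h1.2
    rw [Ideal.mem_bot] at this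
    exact hq.ne_zero (by exact_mod_cast this)
  haveI := h1.1
  haveI hmax : 𝔭.IsMaximal := h1.1.isMaximal h2
  haveI := fin_quot h2
  letI : Field (𝓞 F ⧸ 𝔭) := Ideal.Quotient.field 𝔭
  have hc : ((q : ℕ) : 𝓞 F ⧸ 𝔭) = 0 := by
    have := Ideal.Quotient.eq_zero_iff_mem.2 h1.2
    rwa [map_natCast] at this
  haveI : Fact q.Prime := ⟨hq⟩
  haveI hchar : CharP (𝓞 F ⧸ 𝔭) q := (CharP.charP_iff_prime_eq_zero hq).2 hc
  have h3 : (3 : 𝓞 F ⧸ 𝔭) ≠ 0 := by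
    intro h4
    have h5 : ((3 : ℕ) : 𝓞 F ⧸ 𝔭) = 0 := by exact_mod_cast h4
    rw [CharP.cast_eq_zero_iff (𝓞 F ⧸ 𝔭) q] at h5
    exact absurd (Nat.le_of_dvd (by norm_num) h5) (by omega)
  have hcard : Ideal.absNorm 𝔭 = Nat.card (𝓞 F ⧸ 𝔭) := rfl
  by_cases he : 𝔭 = 𝔮
  · rw [if_pos he]
    have h4 : ringChar (𝓞 F ⧸ 𝔭) ≠ 2 := by
      have h5 := ringChar.eq (𝓞 F ⧸ 𝔭) q
      rw [h5]
      omega
    have h5 := nsq (𝓞 F ⧸ 𝔭) h4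
    have h6 : {a : 𝓞 F ⧸ 𝔭 | Irreducible (X ^ 2 + C a : (𝓞 F ⧸ 𝔭)[X])}.ncard ≤ (Ss 𝔮 𝔭).ncard := by
      refine Set.ncard_le_ncard_of_injOn (fun a => (a, 0)) ?_ ?_ (Set.toFinite _)
      · intro a ha
        exact ⟨fun _ => ⟨rfl, ha⟩, fun h => absurd he h⟩
      · intro a _ b _ hab
        exact (Prod.mk.inj hab).1
    rw [← hcard] at h5
    have h7 : Ideal.absNorm 𝔭 = q := by rw [he, hN]
    rw [h7] at h5 ⊢
    nlinarith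
  · rw [if_neg he, mul_one, hcard]
    refine (h (𝓞 F ⧸ 𝔭) h3).trans (Nat.mul_le_mul_left _ ?_)
    refine Set.ncard_le_ncard ?_ (Set.toFinite _)
    intro p hp
    exact ⟨fun h => absurd h he, fun _ => hp⟩

end

/-- **S_GC**, from `S_IRC`. -/
theorem gc (h : Pool.Agent.H458.AU.S_IRC) : Pool.Agent.H458.AU.S_GC := by
  intro F _ _
  refine ⟨1 / 4 ^ Module.finrank ℚ F, by positivity, fun W q 𝔮 hW hP hN => ?_⟩
  have hq := hP.pr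
  have hq3 := (hP.mod8 hW).2
  have h1 : ∏ 𝔭 : Ps F q, (Ideal.absNorm 𝔭.1) ^ 2 ≤
      ∏ 𝔭 : Ps F q, (4 * (if 𝔭.1 = 𝔮 then q else 1) * (Ss 𝔮 𝔭.1).ncard) :=
    Finset.prod_le_prod' fun 𝔭 _ => le_Ss h hq hq3 hN 𝔭.2
  have h2 : ∏ 𝔭 : Ps F q, (Ideal.absNorm 𝔭.1) ^ 2 = q ^ (2 * Module.finrank ℚ F) := by
    rw [Finset.prod_pow, Finset.prod_coe_sort (Ps F q) fun 𝔭 => Ideal.absNorm 𝔭, nm hq hP.unr,
      ← pow_mul, mul_comm]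
  have h3 : ∏ 𝔭 : Ps F q, (4 * (if 𝔭.1 = 𝔮 then q else 1) * (Ss 𝔮 𝔭.1).ncard) =
      4 ^ (Ps F q).card * q * ∏ 𝔭 : Ps F q, (Ss 𝔮 𝔭.1).ncard := by
    rw [Finset.prod_mul_distrib, Finset.prod_mul_distrib, Finset.prod_const, Finset.card_univ,
      Fintype.card_coe]
    rw [Finset.prod_coe_sort (Ps F q) fun 𝔭 => if 𝔭 = 𝔮 then q else 1, Finset.prod_ite_eq',
      if_pos ((mem_Ps hq).2 ⟨hP.qp, hP.mem⟩)]
  rw [h2, h3] at h1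
  have h4 := le_GR hq hP.qp hP.mem
  have h5 : 4 ^ (Ps F q).card ≤ 4 ^ Module.finrank ℚ F :=
    Nat.pow_le_pow_right (by norm_num) (card_Ps hq hP.unr)
  have h6 : q ^ (2 * Module.finrank ℚ F) ≤ 4 ^ Module.finrank ℚ F * q * (GR q 𝔮).ncard :=
    h1.trans (Nat.mul_le_mul (Nat.mul_le_mul_right _ h5) h4)
  have h7 : ((q : ℝ)) ^ (2 * Module.finrank ℚ F) ≤
      4 ^ Module.finrank ℚ F * q * ((GR q 𝔮).ncard : ℝ) := by exact_mod_cast h6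
  have hq0 : (0 : ℝ) < q := by exact_mod_cast hq.pos
  unfold dl
  rw [div_div, div_le_div_iff₀ (by positivity) (by positivity), one_mul]
  linarith

end Pool.Agent.H747.AU458
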